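import Pool.Agent.SQD.Stmts

/-!
# SQD, row CHR: the product of two Legendre symbols over an interval
-/

open scoped BigOperators

namespace Pool.Agent.SQD.H31

open Pool.Agent.SQD

/-- the sum of a function on `ZMod n` over `n` consecutive numbers -/
theorem sum_period {n : ℕ} [NeZero n] (h : ZMod n → ℤ) (a : ℕ) :
    ∑ d ∈ Finset.range n, h ((a + d : ℕ) : ZMod n) = ∑ x : ZMod n, h x := by
  have h1 : ∑ d ∈ Finset.range n, h ((a + d : ℕ) : ZMod n) =
      ∑ x : ZMod n, h ((a : ZMod n) + x) := by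
    refine Finset.sum_bij' (fun d _ => (d : ZMod n)) (fun x _ => x.val) ?_ ?_ ?_ ?_ ?_
    · intro d _
      exact Finset.mem_univ _
    · intro x _
      exact Finset.mem_range.2 (ZMod.val_lt x)
    · intro d hd
      exact ZMod.val_cast_of_lt (Finset.mem_range.1 hd)
    · intro x _
      exact ZMod.natCast_zmod_val x
    · intro d _
      push_cast
      rfl
  rw [h1]
  exact Fintype.sum_equiv (Equiv.addLeft (a : ZMod n)) _ _ fun x => rfl

/-- the Jacobi symbol for a prime is the quadratic character -/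
theorem jac_eq (q : ℕ) [Fact q.Prime] (d : ℕ) :
    jacobiSym d q = quadraticChar (ZMod q) (d : ZMod q) := by
  rw [← jacobiSym.legendreSym.to_jacobiSym, legendreSym]
  push_cast
  rfl

theorem abs_jac (d q : ℕ) : |jacobiSym d q| ≤ 1 := by
  rcases jacobiSym.trichotomy d q with h | h | h
  · rw [h]; norm_num
  · rw [h]; norm_num
  · rw [h]; norm_num

/-- row CHR -/
theorem chr : ChrStmt := by
  intro q q' hq hq' h2 h2' hne A B
  have hfq : Fact q.Prime := ⟨hq⟩
  have hfq' : Fact q'.Prime := ⟨hq'⟩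
  have hco : Nat.Coprime q q' := (Nat.coprime_primes hq hq').2 hne
  have hn : 0 < q * q' := Nat.mul_pos hq.pos hq'.pos
  have hnz : NeZero (q * q') := ⟨hn.ne'⟩
  have hc1 : ringChar (ZMod q) ≠ 2 := by
    rw [ZMod.ringChar_zmod_n]
    omega
  -- the function on `ZMod (q q')`
  obtain ⟨F, hF⟩ : ∃ F : ZMod (q * q') → ℤ, F = fun x =>
    quadraticChar (ZMod q) (ZMod.chineseRemainder hco x).1 *
      quadraticChar (ZMod q') (ZMod.chineseRemainder hco x).2 := ⟨_, rfl⟩
  have hFd : ∀ d : ℕ, jacobiSym d q * jacobiSym d q' = F (d : ZMod (q * q')) := by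
    intro d
    have h9 : ZMod.chineseRemainder hco (d : ZMod (q * q')) = ((d : ZMod q), (d : ZMod q')) :=
      map_natCast (ZMod.chineseRemainder hco) d
    rw [jac_eq, jac_eq, hF]
    change _ = quadraticChar (ZMod q) (ZMod.chineseRemainder hco (d : ZMod (q * q'))).1 *
      quadraticChar (ZMod q') (ZMod.chineseRemainder hco (d : ZMod (q * q'))).2
    rw [h9]
  have hF0 : ∑ x : ZMod (q * q'), F x = 0 := by
    have h1 : ∑ x : ZMod (q * q'), F x = ∑ y : ZMod q × ZMod q',
        quadraticChar (ZMod q) y.1 * quadraticChar (ZMod q') y.2 :=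
      Fintype.sum_equiv (ZMod.chineseRemainder hco).toEquiv _ _ fun x => by
        rw [hF]
        rfl
    rw [h1, Fintype.sum_prod_type]
    have h3 : ∀ x : ZMod q, ∑ y : ZMod q', quadraticChar (ZMod q) x * quadraticChar (ZMod q') y =
        quadraticChar (ZMod q) x * ∑ y : ZMod q', quadraticChar (ZMod q') y := fun x => by
      rw [Finset.mul_sum]
    rw [Finset.sum_congr rfl fun x _ => h3 x, ← Finset.sum_mul, quadraticChar_sum_zero hc1,
      zero_mul]
  -- full periods
  have hper : ∀ k a : ℕ, ∑ d ∈ Finset.Ico a (a + k * (q * q')),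
      (jacobiSym d q * jacobiSym d q') = 0 := by
    intro k
    induction k with
    | zero =>
      intro a
      rw [zero_mul, add_zero, Finset.Ico_self, Finset.sum_empty]
    | succ k ih =>
      intro a
      have e1 : a + (k + 1) * (q * q') = (a + q * q') + k * (q * q') := by ring
      rw [e1, ← Finset.sum_Ico_consecutive _ (Nat.le_add_right a (q * q'))
        (Nat.le_add_right (a + q * q') (k * (q * q'))), ih, add_zero,
        Finset.sum_Ico_eq_sum_range, Nat.add_sub_cancel_left,
        Finset.sum_congr rfl fun d _ => hFd (a + d)]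
      have h4 := sum_period F a
      rw [h4, hF0]
  rcases le_or_gt B A with hAB | hAB
  · rw [Finset.Ico_eq_empty_of_le hAB, Finset.sum_empty, abs_zero]
    positivity
  obtain ⟨m, hm⟩ : ∃ m : ℕ, m = A + (B - A) / (q * q') * (q * q') := ⟨_, rfl⟩
  have hdm := Nat.div_add_mod (B - A) (q * q')
  have hmod := Nat.mod_lt (B - A) hn
  have hmB : m ≤ B := by
    have h5 : (B - A) / (q * q') * (q * q') ≤ B - A := Nat.div_mul_le_self _ _
    omega
  have hAm : A ≤ m := by
    rw [hm]
    exact Nat.le_add_right _ _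
  rw [← Finset.sum_Ico_consecutive _ hAm hmB, hm, hper, zero_add, ← hm]
  have h6 : B - m < q * q' := by
    have h7 : q * q' * ((B - A) / (q * q')) = (B - A) / (q * q') * (q * q') := mul_comm _ _
    omega
  calc |∑ d ∈ Finset.Ico m B, (jacobiSym d q * jacobiSym d q')|
      ≤ ∑ d ∈ Finset.Ico m B, |jacobiSym d q * jacobiSym d q'| := Finset.abs_sum_le_sum_abs _ _
    _ ≤ ∑ d ∈ Finset.Ico m B, (1 : ℤ) := by
        refine Finset.sum_le_sum fun d _ => ?_
        rw [abs_mul]
        exact mul_le_one₀ (abs_jac d q) (abs_nonneg _) (abs_jac d q')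
    _ = ((B - m : ℕ) : ℤ) := by
        rw [Finset.sum_const, Nat.card_Ico, nsmul_eq_mul, mul_one]
    _ ≤ (q : ℤ) * q' := by
        have h8 : ((B - m : ℕ) : ℤ) ≤ ((q * q' : ℕ) : ℤ) := by exact_mod_cast h6.le
        rwa [Nat.cast_mul] at h8

end Pool.Agent.SQD.H31
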